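import Pool.Agent.W662.SK.StmtsB

set_option autoImplicit false

open scoped InnerProductSpace ENNReal
open Filter Topology

namespace Pool.Agent.W692.SK.B4

open Pool.Agent.W662.SK

theorem norm_lft_isom {I E : Type} [NormedAddCommGroup E] [InnerProductSpace ℂ E]
    (s : E →ₗᵢ[ℂ] E) (v : L2 I E) : ‖lft I s.toContinuousLinearMap v‖ = ‖v‖ := by
  have h1 := norm_sq_hasSum (lft I s.toContinuousLinearMap v)
  have h2 := norm_sq_hasSum v
  have h3 : (fun i => ‖lft I s.toContinuousLinearMap v i‖ ^ 2) = fun i => ‖v i‖ ^ 2 := by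
    funext i
    rw [lft_apply]
    have : ‖s.toContinuousLinearMap (v i)‖ = ‖v i‖ := s.norm_map _
    rw [this]
  rw [h3] at h1
  have h4 := h1.unique h2
  exact (sq_eq_sq₀ (norm_nonneg _) (norm_nonneg _)).1 h4

section comm
variable {Γ : Type} [Group Γ] {K : Type} [NormedAddCommGroup K] [InnerProductSpace ℂ K]

theorem sg_cont (π : Γ →* (K ≃ₗᵢ[ℂ] K)) : Continuous (fun c => sg π c) := by
  unfold sg
  exact continuous_const.clm_comp (continuous_id.clm_comp continuous_const)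

/-- Operators `c` for which `sg π c` commutes with the lift of `s`. -/
noncomputable def CM (π : Γ →* (K ≃ₗᵢ[ℂ] K)) (s : K →ₗᵢ[ℂ] K) :
    Submodule ℂ (L2 Γ K →L[ℂ] L2 Γ K) where
  carrier := {c | (sg π c).comp (lft Γ s.toContinuousLinearMap) =
    (lft Γ s.toContinuousLinearMap).comp (sg π c)}
  add_mem' := by
    intro a b ha hb
    have e : sg π (a + b) = sg π a + sg π b := by
      ext f i; simp [sg]
    simp only [Set.mem_setOf_eq] at ha hb ⊢
    rw [e, ContinuousLinearMap.add_comp, ContinuousLinearMap.comp_add, ha, hb]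
  zero_mem' := by
    have e : sg π (0 : L2 Γ K →L[ℂ] L2 Γ K) = 0 := by
      ext f i; simp [sg]
    simp only [Set.mem_setOf_eq]
    rw [e, ContinuousLinearMap.zero_comp, ContinuousLinearMap.comp_zero]
  smul_mem' := by
    intro c a ha
    have e : sg π (c • a) = c • sg π a := by
      ext f i; simp [sg]
    simp only [Set.mem_setOf_eq] at ha ⊢
    rw [e, ContinuousLinearMap.smul_comp, ContinuousLinearMap.comp_smul, ha]

theorem CM_closed (π : Γ →* (K ≃ₗᵢ[ℂ] K)) (s : K →ₗᵢ[ℂ] K) :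
    IsClosed (CM π s : Set (L2 Γ K →L[ℂ] L2 Γ K)) :=
  isClosed_eq ((sg_cont π).clm_comp continuous_const) (continuous_const.clm_comp (sg_cont π))

theorem Cr_le (π : Γ →* (K ≃ₗᵢ[ℂ] K)) (s : K →ₗᵢ[ℂ] K) (hs : ∀ g x, π g (s x) = s (π g x)) :
    Cr Γ K ≤ CM π s := by
  refine Submodule.topologicalClosure_minimal _ ?_ (CM_closed π s)
  rw [Submodule.span_le]
  rintro _ ⟨g, rfl⟩
  change (sg π (cl (Lam K g))).comp (lft Γ s.toContinuousLinearMap) =
    (lft Γ s.toContinuousLinearMap).comp (sg π (cl (Lam K g)))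
  rw [sg_Lam]
  refine ContinuousLinearMap.ext fun f => l2_ext fun k => ?_
  exact hs g (f (g⁻¹ * k))

end comm

theorem b4 (h0 : S_B0) (h3 : S_B3) : S_B4 := by
  intro Γ K _ _ _ _ π hsh j hj c hc
  obtain ⟨s, hs, hw⟩ := hsh
  obtain ⟨-, -, -, -, -, hn⟩ := h0 Γ K π
  rw [← hn c]
  refine ContinuousLinearMap.opNorm_le_bound _ (norm_nonneg _) fun ζ => ?_
  have hlim : Tendsto (fun n => ‖j + sg π c‖ * ‖ζ‖ +
      ‖j (lft Γ (s n).toContinuousLinearMap ζ)‖) atTop (𝓝 (‖j + sg π c‖ * ‖ζ‖ + 0)) :=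
    tendsto_const_nhds.add (h3 Γ K s hw j hj ζ)
  rw [add_zero] at hlim
  refine ge_of_tendsto' hlim fun n => ?_
  have hcm := Cr_le π (s n) (fun g x => hs n g x) hc
  have hcm' : sg π c (lft Γ (s n).toContinuousLinearMap ζ) =
      lft Γ (s n).toContinuousLinearMap (sg π c ζ) := congrArg (fun T => T ζ) hcm
  calc ‖sg π c ζ‖ = ‖lft Γ (s n).toContinuousLinearMap (sg π c ζ)‖ := (norm_lft_isom _ _).symm
    _ = ‖sg π c (lft Γ (s n).toContinuousLinearMap ζ)‖ := by rw [hcm']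
    _ = ‖(j + sg π c) (lft Γ (s n).toContinuousLinearMap ζ) -
        j (lft Γ (s n).toContinuousLinearMap ζ)‖ := by
      rw [ContinuousLinearMap.add_apply, add_sub_cancel_left]
    _ ≤ ‖(j + sg π c) (lft Γ (s n).toContinuousLinearMap ζ)‖ +
        ‖j (lft Γ (s n).toContinuousLinearMap ζ)‖ := norm_sub_le _ _
    _ ≤ ‖j + sg π c‖ * ‖ζ‖ + ‖j (lft Γ (s n).toContinuousLinearMap ζ)‖ := by
      refine add_le_add ?_ le_rfl
      have := (j + sg π c).le_opNorm (lft Γ (s n).toContinuousLinearMap ζ)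
      rwa [norm_lft_isom] at this

end Pool.Agent.W692.SK.B4
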